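import Mathlib
import Pool.Agent.H24.NilSub

set_option autoImplicit false

namespace Pool.Agent.Results.MP_ff4305_al.Unsolvable

open FreeMonoid

theorem result : ∃ (n : ℕ) (R : List (List (Fin n × Bool)))
    (c : Con (FreeMonoid (Fin n × Bool)))
    (π : List (Fin n × Bool) → PresentedGroup {g | ∃ r ∈ R, FreeGroup.mk r = g})
    (P : Set (PresentedGroup {g | ∃ r ∈ R, FreeGroup.mk r = g})),
    c = conGen (fun a b =>
      (∃ u, a = ofList (u ++ FreeGroup.invRev u ++ u) ∧ b = ofList u) ∨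
      (∃ u v, a = ofList (u ++ FreeGroup.invRev u ++ (v ++ FreeGroup.invRev v)) ∧
        b = ofList (v ++ FreeGroup.invRev v ++ (u ++ FreeGroup.invRev u))) ∨
      (∃ r ∈ R, a = ofList r ∧ b = 1)) ∧
    (∀ w, π w = PresentedGroup.mk _ (FreeGroup.mk w)) ∧
    P = {g | ∃ w, (∃ t : c.Quotient, c.mk' (ofList w) * t = 1) ∧ π w = g} ∧
    (∀ e s : c.Quotient, e * e = e → (∃ f, f * f = f ∧ e = f * s) → s * s = s) ∧
    (∀ a ∈ P, ∀ b ∈ P, ∃ x ∈ P, ∃ y ∈ P, a * x = b * y) ∧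
    (ComputablePred fun w => π w = 1) ∧
    ¬ ComputablePred fun p : List (Fin n × Bool) × List (Fin n × Bool) =>
      c (ofList p.1) (ofList p.2) := by
  obtain ⟨n, R, h⟩ := Pool.Agent.H24.NilSub.final
  exact ⟨n, R, Pool.Agent.H24.SpInv.ic R, Pool.Agent.H24.SpInv.pi R, _, rfl, fun _ => rfl, rfl, h⟩

end Pool.Agent.Results.MP_ff4305_al.Unsolvable
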